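import Pool.Agent.Mld.Basic

set_option autoImplicit false

/-!
# MLD_GR: the weights of an element of finite order acting freely
-/

namespace Pool.Agent.Mld

open Polynomial

section CharpolyPow

variable {n : Type*} [Fintype n] [DecidableEq n] (A : Matrix n n ℂ)

theorem gr_card_roots : Multiset.card A.charpoly.roots = Fintype.card n := by
  rw [← (IsAlgClosed.splits A.charpoly).natDegree_eq_card_roots, Matrix.charpoly_natDegree_eq_dim]

/-- `p ↦ det p(A)`. -/
noncomputable def grPhi : ℂ[X] →* ℂ where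
  toFun p := (aeval A p).det
  map_one' := by simp
  map_mul' p q := by simp

/-- `p ↦ ∏ p(x)` over the roots of the characteristic polynomial. -/
noncomputable def grPsi (R : Multiset ℂ) : ℂ[X] →* ℂ where
  toFun p := (R.map (fun x => eval x p)).prod
  map_one' := by simp
  map_mul' p q := by simp

theorem gr_phi_C (c : ℂ) : grPhi A (C c) = grPsi A.charpoly.roots (C c) := by
  show (aeval A (C c)).det = (A.charpoly.roots.map (fun x => eval x (C c))).prod
  simp only [eval_C, Multiset.map_const', Multiset.prod_replicate, gr_card_roots]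
  rw [aeval_C, Algebra.algebraMap_eq_smul_one, Matrix.det_smul, Matrix.det_one, mul_one]

theorem gr_phi_X_sub (a : ℂ) : grPhi A (X - C a) = grPsi A.charpoly.roots (X - C a) := by
  show (aeval A (X - C a)).det = (A.charpoly.roots.map (fun x => eval x (X - C a))).prod
  have h1 : aeval A (X - C a) = -(Matrix.scalar n a - A) := by
    rw [map_sub, aeval_X, aeval_C, neg_sub]
    rfl
  have h2 : A.charpoly.eval a = (A.charpoly.roots.map (fun x => a - x)).prod := by
    conv_lhs => rw [(IsAlgClosed.splits A.charpoly).eq_prod_roots_of_monic A.charpoly_monic]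
    rw [eval_multiset_prod, Multiset.map_map]
    congr 1
    apply Multiset.map_congr rfl
    intro x _
    simp
  rw [h1, Matrix.det_neg, ← Matrix.eval_charpoly, h2]
  have h3 : (A.charpoly.roots.map (fun x => eval x (X - C a))) =
      (A.charpoly.roots.map (fun x => (-1) * (a - x))) := by
    apply Multiset.map_congr rfl
    intro x _
    simp
  rw [h3, Multiset.prod_map_mul]
  simp [gr_card_roots]

theorem gr_det_aeval (p : ℂ[X]) :
    (aeval A p).det = (A.charpoly.roots.map (fun x => eval x p)).prod := by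
  show grPhi A p = grPsi A.charpoly.roots p
  have h := (IsAlgClosed.splits p).eq_prod_roots
  rw [h, map_mul, map_mul, gr_phi_C, map_multiset_prod, map_multiset_prod, Multiset.map_map,
    Multiset.map_map]
  congr 2
  apply Multiset.map_congr rfl
  intro a _
  exact gr_phi_X_sub A a

theorem gr_charpoly_pow (k : ℕ) :
    (A ^ k).charpoly = (A.charpoly.roots.map (fun x => X - C (x ^ k))).prod := by
  apply Polynomial.funext
  intro z
  rw [Matrix.eval_charpoly]
  have h1 : Matrix.scalar n z - A ^ k = aeval A (C z - X ^ k) := by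
    rw [map_sub, map_pow, aeval_X, aeval_C]
    rfl
  rw [h1, gr_det_aeval, eval_multiset_prod, Multiset.map_map]
  congr 1
  apply Multiset.map_congr rfl
  intro x _
  simp

/-- the eigenvalues of a power -/
theorem gr_roots_pow (k : ℕ) :
    (A ^ k).charpoly.roots = A.charpoly.roots.map (fun x => x ^ k) := by
  rw [gr_charpoly_pow]
  have := Polynomial.roots_multiset_prod_X_sub_C (A.charpoly.roots.map (fun x => x ^ k))
  rw [Multiset.map_map] at this
  exact this

end CharpolyPow

theorem eig_pow {n : ℕ} (g : GL (Fin n) ℂ) (k : ℕ) :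
    eig (g ^ k) = (eig g).map (fun x => x ^ k) := by
  unfold eig
  rw [Units.val_pow_eq_pow_val, gr_roots_pow]

theorem card_eig {n : ℕ} (g : GL (Fin n) ℂ) : Multiset.card (eig g) = n := by
  unfold eig
  rw [gr_card_roots, Fintype.card_fin]

/-- the argument of a root of unity -/
theorem fr_stdAddChar {m : ℕ} [NeZero m] (x : ZMod m) :
    fr (ZMod.stdAddChar x : ℂ) = (x.val : ℝ) / m := by
  have hm : (0 : ℝ) < m := by exact_mod_cast NeZero.pos m
  have h1 : (ZMod.stdAddChar x : ℂ) = Complex.exp (2 * Real.pi * Complex.I * x.val / m) := by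
    have := ZMod.stdAddChar_coe (N := m) (x.val : ℤ)
    simpa using this
  have hnorm : ‖(ZMod.stdAddChar x : ℂ)‖ = 1 := by
    rw [ZMod.stdAddChar_apply]
    simp
  have h2 : Complex.exp (Complex.arg (ZMod.stdAddChar x : ℂ) * Complex.I) =
      (ZMod.stdAddChar x : ℂ) := by
    have := Complex.norm_mul_exp_arg_mul_I (ZMod.stdAddChar x : ℂ)
    rw [hnorm] at this
    simpa using this
  obtain ⟨N, hN⟩ := Complex.exp_eq_exp_iff_exists_int.1 (h2.trans h1)
  have hpi : (Real.pi : ℂ) ≠ 0 := by exact_mod_cast Real.pi_ne_zero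
  have hmC : (m : ℂ) ≠ 0 := by exact_mod_cast hm.ne'
  have h3 : Complex.arg (ZMod.stdAddChar x : ℂ) / (2 * Real.pi) = (x.val : ℝ) / m + (N : ℝ) := by
    have : ((Complex.arg (ZMod.stdAddChar x : ℂ) / (2 * Real.pi) : ℝ) : ℂ) =
        (((x.val : ℝ) / m + (N : ℝ) : ℝ) : ℂ) := by
      push_cast
      have hI := Complex.I_ne_zero
      have : (Complex.arg (ZMod.stdAddChar x : ℂ) : ℂ) * Complex.I =
          (2 * Real.pi * ((x.val : ℂ) / m + N)) * Complex.I := by
        rw [hN]
        field_simp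
      have h4 := mul_right_cancel₀ hI this
      rw [h4]
      field_simp
    exact_mod_cast this
  unfold fr
  rw [h3, Int.fract_add_intCast, Int.fract_eq_self]
  constructor
  · positivity
  · rw [div_lt_one hm]
    exact_mod_cast ZMod.val_lt x

theorem fr_stdAddChar_of_ne {m : ℕ} [NeZero m] {x : ZMod m} (hx : x ≠ 0) :
    fr (ZMod.stdAddChar x : ℂ) = saw m x + 1 / 2 := by
  rw [fr_stdAddChar, saw_of_ne hx]
  ring

/-- the ages of the powers of an element with given weights -/
theorem age_pow_of_weights {n m : ℕ} [NeZero m] (g : GL (Fin n) ℂ) (w : Multiset (ZMod m)ˣ)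
    (hw : eig g = w.map fun u : (ZMod m)ˣ => (ZMod.stdAddChar (u : ZMod m) : ℂ))
    (k : ℕ) (hk : (k : ZMod m) ≠ 0) : age (g ^ k) = (n : ℝ) / 2 + SS m w k := by
  have hcard : Multiset.card w = n := by
    rw [← card_eig g, hw, Multiset.card_map]
  unfold age
  rw [eig_pow, hw, Multiset.map_map, Multiset.map_map]
  have h1 : (w.map ((fr ∘ fun x => x ^ k) ∘
      fun u : (ZMod m)ˣ => (ZMod.stdAddChar (u : ZMod m) : ℂ))) =
      w.map fun u : (ZMod m)ˣ => (saw m (k * (u : ZMod m)) + 1 / 2) := by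
    apply Multiset.map_congr rfl
    intro u _
    have hne : (k : ZMod m) * (u : ZMod m) ≠ 0 := by
      intro h
      apply hk
      have := congrArg (fun y : ZMod m => y * ((u⁻¹ : (ZMod m)ˣ) : ZMod m)) h
      simpa [mul_assoc] using this
    have h2 : ((ZMod.stdAddChar (u : ZMod m) : ℂ)) ^ k =
        (ZMod.stdAddChar ((k : ZMod m) * (u : ZMod m)) : ℂ) := by
      rw [← AddChar.map_nsmul_eq_pow, nsmul_eq_mul]
    simp only [Function.comp_apply]
    rw [h2, fr_stdAddChar_of_ne hne]
  rw [h1, Multiset.sum_map_add]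
  unfold SS
  rw [Multiset.map_const', Multiset.sum_replicate, hcard, nsmul_eq_mul]
  ring

/-- an eigenvector -/
theorem exists_eigenvector {n : ℕ} (A : Matrix (Fin n) (Fin n) ℂ) {z : ℂ}
    (hz : z ∈ A.charpoly.roots) : ∃ v : Fin n → ℂ, v ≠ 0 ∧ A.mulVec v = z • v := by
  have h1 : A.charpoly.eval z = 0 := by
    have := (Polynomial.mem_roots (A.charpoly_monic.ne_zero)).1 hz
    exact this
  rw [Matrix.eval_charpoly] at h1
  obtain ⟨v, hv, h2⟩ := Matrix.exists_mulVec_eq_zero_iff.2 h1
  refine ⟨v, hv, ?_⟩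
  rw [Matrix.sub_mulVec, sub_eq_zero] at h2
  rw [← h2]
  simp [Matrix.scalar_apply, Matrix.diagonal_const_mulVec]

theorem mulVec_pow_eq {n : ℕ} (A : Matrix (Fin n) (Fin n) ℂ) {z : ℂ} {v : Fin n → ℂ}
    (h : A.mulVec v = z • v) (k : ℕ) : (A ^ k).mulVec v = z ^ k • v := by
  induction k with
  | zero => simp
  | succ k ih =>
    rw [pow_succ, ← Matrix.mulVec_mulVec, h, Matrix.mulVec_smul, ih, smul_smul, pow_succ,
      mul_comm]

/-- the eigenvalues of an element of order `m` acting freely are primitive -/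
theorem eig_primitive {n m : ℕ} (g : GL (Fin n) ℂ) (hg : orderOf g = m)
    (hF : Free (Subgroup.zpowers g)) {z : ℂ} (hz : z ∈ eig g) : IsPrimitiveRoot z m := by
  obtain ⟨v, hv, hv2⟩ := exists_eigenvector (g : Matrix (Fin n) (Fin n) ℂ) hz
  have hfix : ∀ k : ℕ, z ^ k = 1 → g ^ k = 1 := by
    intro k hk
    by_contra hne
    apply hv
    apply hF (g ^ k) (Subgroup.npow_mem_zpowers g k) hne v
    rw [Units.val_pow_eq_pow_val, mulVec_pow_eq _ hv2, hk, one_smul]
  refine ⟨?_, ?_⟩
  · have h1 := mulVec_pow_eq _ hv2 m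
    have h2 : (g : Matrix (Fin n) (Fin n) ℂ) ^ m = 1 := by
      rw [← Units.val_pow_eq_pow_val, ← hg, pow_orderOf_eq_one, Units.val_one]
    rw [h2, Matrix.one_mulVec] at h1
    have h3 : (z ^ m - 1) • v = 0 := by
      rw [sub_smul, ← h1, one_smul, sub_self]
    rcases smul_eq_zero.1 h3 with h4 | h4
    · exact sub_eq_zero.1 h4
    · exact absurd h4 hv
  · intro l hl
    rw [← hg]
    exact orderOf_dvd_of_pow_eq_one (hfix l hl)

/-- a primitive root of unity is given by a unit -/
theorem exists_unit_of_primitive {m : ℕ} [NeZero m] {z : ℂ} (hz : IsPrimitiveRoot z m) :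
    ∃ u : (ZMod m)ˣ, (ZMod.stdAddChar (u : ZMod m) : ℂ) = z := by
  have hm : m ≠ 0 := NeZero.ne m
  have h0 := Complex.isPrimitiveRoot_exp m hm
  obtain ⟨i, hi, hco, hzi⟩ := h0.isPrimitiveRoot_iff.1 hz
  refine ⟨ZMod.unitOfCoprime i hco, ?_⟩
  rw [ZMod.coe_unitOfCoprime]
  have h1 := ZMod.stdAddChar_coe (N := m) (i : ℤ)
  rw [← hzi, ← Complex.exp_nat_mul]
  have h2 : (((i : ℤ) : ZMod m)) = (i : ZMod m) := by push_cast; rfl
  rw [h2] at h1
  rw [h1]
  congr 1
  push_cast
  ring

/-- MLD_GR -/
theorem gr : S_GR := by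
  intro n m _ g _ hg hF
  classical
  have key : ∀ z ∈ eig g, ∃ u : (ZMod m)ˣ, (ZMod.stdAddChar (u : ZMod m) : ℂ) = z :=
    fun z hz => exists_unit_of_primitive (eig_primitive g hg hF hz)
  let U : ℂ → (ZMod m)ˣ := fun z =>
    if h : ∃ u : (ZMod m)ˣ, (ZMod.stdAddChar (u : ZMod m) : ℂ) = z then h.choose else 1
  have hU : ∀ z ∈ eig g, (ZMod.stdAddChar ((U z : (ZMod m)ˣ) : ZMod m) : ℂ) = z := by
    intro z hz
    have h := key z hz
    have h2 : U z = h.choose := by
      simp only [U, dif_pos h]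
    rw [h2]
    exact h.choose_spec
  have hw : eig g = ((eig g).map U).map
      fun u : (ZMod m)ˣ => (ZMod.stdAddChar (u : ZMod m) : ℂ) := by
    rw [Multiset.map_map]
    conv_lhs => rw [← Multiset.map_id (eig g)]
    apply Multiset.map_congr rfl
    intro z hz
    exact (hU z hz).symm
  refine ⟨(eig g).map U, ?_, hw, fun k hk => age_pow_of_weights g _ hw k hk⟩
  rw [Multiset.card_map, card_eig]

end Pool.Agent.Mld
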