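import Pool.Agent.Mld.Basic

set_option autoImplicit false

/-!
# MLD_MK: realisation of given weights by diagonal matrices
-/

namespace Pool.Agent.Mld

open Matrix Finset

namespace Mk

theorem fr_exp (x : ℝ) :
    fr (Complex.exp (((2 * Real.pi * x : ℝ) : ℂ) * Complex.I)) = Int.fract x := by
  unfold fr
  rw [Complex.arg_exp_mul_I]
  unfold toIocMod
  have hpi : (2 * Real.pi) ≠ 0 := Real.two_pi_pos.ne'
  rw [sub_div, zsmul_eq_mul, mul_div_cancel_right₀ _ hpi, mul_div_cancel_left₀ _ hpi,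
    Int.fract_sub_intCast]

theorem fr_std {m : ℕ} [NeZero m] (x : ZMod m) :
    fr (ZMod.stdAddChar x : ℂ) = (x.val : ℝ) / m := by
  have h1 : (ZMod.stdAddChar x : ℂ) =
      Complex.exp (((2 * Real.pi * ((x.val : ℝ) / m) : ℝ) : ℂ) * Complex.I) := by
    rw [ZMod.stdAddChar_apply, ZMod.toCircle_apply]
    congr 1
    push_cast
    ring
  have hm : (0 : ℝ) < m := by exact_mod_cast NeZero.pos m
  rw [h1, fr_exp, Int.fract_eq_self]
  refine ⟨by positivity, (div_lt_one hm).2 ?_⟩
  exact_mod_cast ZMod.val_lt x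

/-- the diagonal matrix with diagonal `e(f i)` -/
noncomputable def dg {n m : ℕ} [NeZero m] (f : Fin n → ZMod m) : GL (Fin n) ℂ where
  val := Matrix.diagonal fun i => (ZMod.stdAddChar (f i) : ℂ)
  inv := Matrix.diagonal fun i => (ZMod.stdAddChar (-f i) : ℂ)
  val_inv := by
    rw [Matrix.diagonal_mul_diagonal, ← Matrix.diagonal_one]
    congr 1
    ext i
    rw [← AddChar.map_add_eq_mul, add_neg_cancel, AddChar.map_zero_eq_one]
  inv_val := by
    rw [Matrix.diagonal_mul_diagonal, ← Matrix.diagonal_one]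
    congr 1
    ext i
    rw [← AddChar.map_add_eq_mul, neg_add_cancel, AddChar.map_zero_eq_one]

theorem dg_pow {n m : ℕ} [NeZero m] (f : Fin n → ZMod m) (k : ℕ) :
    dg f ^ k = dg fun i => (k : ZMod m) * f i := by
  apply Units.ext
  rw [Units.val_pow_eq_pow_val]
  change (Matrix.diagonal fun i => (ZMod.stdAddChar (f i) : ℂ)) ^ k =
    Matrix.diagonal fun i => (ZMod.stdAddChar ((k : ZMod m) * f i) : ℂ)
  rw [Matrix.diagonal_pow]
  congr 1
  ext i
  rw [Pi.pow_apply, ← AddChar.map_nsmul_eq_pow, nsmul_eq_mul]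

theorem eig_dg {n m : ℕ} [NeZero m] (f : Fin n → ZMod m) :
    eig (dg f) = (Finset.univ.val.map fun i => (ZMod.stdAddChar (f i) : ℂ)) := by
  unfold eig
  change (Matrix.diagonal fun i => (ZMod.stdAddChar (f i) : ℂ)).charpoly.roots = _
  rw [Matrix.charpoly_diagonal]
  have := Polynomial.roots_multiset_prod_X_sub_C
    (Finset.univ.val.map fun i => (ZMod.stdAddChar (f i) : ℂ))
  rw [Multiset.map_map] at this
  exact this

theorem mulVec_dg {n m : ℕ} [NeZero m] (f : Fin n → ZMod m) (v : Fin n → ℂ) :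
    ((dg f : GL (Fin n) ℂ) : Matrix (Fin n) (Fin n) ℂ).mulVec v =
      fun i => (ZMod.stdAddChar (f i) : ℂ) * v i := by
  change (Matrix.diagonal fun i => (ZMod.stdAddChar (f i) : ℂ)).mulVec v = _
  ext i
  rw [Matrix.mulVec_diagonal]

theorem dg_eq_one_iff {n m : ℕ} [NeZero m] (f : Fin n → ZMod m) : dg f = 1 ↔ ∀ i, f i = 0 := by
  constructor
  · intro h i
    have h1 : (Matrix.diagonal fun i => (ZMod.stdAddChar (f i) : ℂ)) =
        (1 : Matrix (Fin n) (Fin n) ℂ) := congrArg Units.val h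
    have h2 := congrFun (congrFun h1 i) i
    rw [Matrix.diagonal_apply_eq, Matrix.one_apply_eq] at h2
    rw [← AddChar.map_zero_eq_one (ZMod.stdAddChar (N := m))] at h2
    exact ZMod.injective_stdAddChar h2
  · intro h
    apply Units.ext
    change (Matrix.diagonal fun i => (ZMod.stdAddChar (f i) : ℂ)) =
        (1 : Matrix (Fin n) (Fin n) ℂ)
    rw [← Matrix.diagonal_one]
    congr 1
    ext i
    rw [h i, AddChar.map_zero_eq_one]

end Mk

open Mk in
theorem mk : S_MK := by
  intro n m _ w hm hn hw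
  obtain ⟨l, rfl⟩ := Quot.exists_rep w
  have hl : l.length = n := hw
  subst hl
  set l' : Multiset (ZMod m)ˣ := Quot.mk _ l with hl'
  have hf : Finset.univ.val.map (fun i : Fin l.length => l.get i) = l' := by
    rw [Fin.univ_val_map, List.ofFn_get]
    rfl
  let f : Fin l.length → ZMod m := fun i => (l.get i : ZMod m)
  have hk0 : ∀ (k : ℕ) (i : Fin l.length), (k : ZMod m) * f i = 0 ↔ (k : ZMod m) = 0 := by
    intro k i
    constructor
    · intro h
      have := (l.get i).isUnit.mul_left_eq_zero.1 h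
      exact this
    · intro h
      rw [h, zero_mul]
  have hpow : ∀ k : ℕ, dg f ^ k = 1 ↔ (k : ZMod m) = 0 := by
    intro k
    rw [dg_pow, dg_eq_one_iff]
    constructor
    · intro h
      exact (hk0 k ⟨0, hn⟩).1 (h _)
    · intro h i
      exact (hk0 k i).2 h
  have hord : orderOf (dg f) = m := by
    apply Nat.dvd_antisymm
    · apply orderOf_dvd_of_pow_eq_one
      rw [hpow, ZMod.natCast_self]
    · rw [← ZMod.natCast_eq_zero_iff, ← hpow]
      exact pow_orderOf_eq_one _
  refine ⟨dg f, hord, ?_, ?_, ?_⟩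
  · intro g hg hg1 v hv
    have hfin : IsOfFinOrder (dg f) := by
      rw [← orderOf_pos_iff, hord]
      omega
    rw [← hfin.mem_powers_iff_mem_zpowers] at hg
    obtain ⟨k, rfl⟩ := hg
    have hk : (k : ZMod m) ≠ 0 := fun h => hg1 ((hpow k).2 h)
    change ((dg f ^ k : GL (Fin l.length) ℂ) : Matrix _ _ ℂ).mulVec v = v at hv
    rw [dg_pow, mulVec_dg] at hv
    ext i
    have h1 := congrFun hv i
    have h2 : (ZMod.stdAddChar ((k : ZMod m) * f i) : ℂ) ≠ 1 := by
      intro h3
      rw [← AddChar.map_zero_eq_one (ZMod.stdAddChar (N := m))] at h3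
      exact hk ((hk0 k i).1 (ZMod.injective_stdAddChar h3))
    have h4 : ((ZMod.stdAddChar ((k : ZMod m) * f i) : ℂ) - 1) * v i = 0 := by
      rw [sub_mul, one_mul, sub_eq_zero]
      exact h1
    exact (mul_eq_zero.1 h4).resolve_left (sub_ne_zero.2 h2)
  · rw [eig_dg, ← hf, Multiset.map_map]
    rfl
  · intro k hk
    unfold age
    rw [dg_pow, eig_dg, Multiset.map_map]
    have h1 : SS m l' (k : ZMod m) = ∑ i : Fin l.length, saw m ((k : ZMod m) * f i) := by
      unfold SS
      rw [← hf, Multiset.map_map]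
      rfl
    rw [h1]
    change ∑ i : Fin l.length, fr (ZMod.stdAddChar ((k : ZMod m) * f i) : ℂ) = _
    have h2 : ∀ i : Fin l.length, fr (ZMod.stdAddChar ((k : ZMod m) * f i) : ℂ) =
        1 / 2 + saw m ((k : ZMod m) * f i) := by
      intro i
      rw [fr_std, saw_of_ne (fun h => hk ((hk0 k i).1 h))]
      ring
    rw [Finset.sum_congr rfl fun i _ => h2 i, Finset.sum_add_distrib, Finset.sum_const,
      Finset.card_univ, Fintype.card_fin, nsmul_eq_mul]
    ring

end Pool.Agent.Mld
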