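import Pool.Agent.Mld.Basic

set_option autoImplicit false

/-!
# MLD_LBD: a bound for `L(s, χ)` in a disc (helper14)
-/

namespace Pool.Agent.Mld

open Finset Filter Topology MeasureTheory

namespace LBD

/-- a sum over a period -/
theorem sum_range_zmod {m : ℕ} [NeZero m] (F : ZMod m → ℂ) :
    ∑ k ∈ range m, F (k : ZMod m) = ∑ x : ZMod m, F x := by
  refine Finset.sum_bij' (fun k _ => (k : ZMod m)) (fun x _ => x.val) ?_ ?_ ?_ ?_ ?_
  · intro k _
    exact mem_univ _
  · intro x _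
    exact mem_range.2 (ZMod.val_lt x)
  · intro k hk
    exact ZMod.val_natCast_of_lt (mem_range.1 hk)
  · intro x _
    exact ZMod.natCast_zmod_val x
  · intro k _
    rfl

theorem sum_periods {m : ℕ} [NeZero m] (χ : DirichletCharacter ℂ m) (hχ : χ ≠ 1) (q : ℕ) :
    ∑ k ∈ range (m * q), χ (k : ZMod m) = 0 := by
  induction q with
  | zero => simp
  | succ q ih =>
    rw [Nat.mul_succ, sum_range_add, ih, zero_add]
    have h : ∀ k ∈ range m, χ ((m * q + k : ℕ) : ZMod m) = χ (k : ZMod m) := by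
      intro k _
      push_cast
      rw [ZMod.natCast_self, zero_mul, zero_add]
    rw [sum_congr rfl h, sum_range_zmod fun x => χ x]
    exact MulChar.sum_eq_zero_of_ne_one hχ

theorem norm_sum_range_le {m : ℕ} [NeZero m] (χ : DirichletCharacter ℂ m) (hχ : χ ≠ 1) (n : ℕ) :
    ‖∑ k ∈ range n, χ (k : ZMod m)‖ ≤ m := by
  have hm : 0 < m := NeZero.pos m
  rw [← Nat.div_add_mod n m, sum_range_add, sum_periods χ hχ, zero_add]
  refine (norm_sum_le _ _).trans ?_
  refine (sum_le_sum fun k _ => χ.norm_le_one _).trans ?_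
  rw [sum_const, card_range, nsmul_eq_mul, mul_one]
  exact_mod_cast (Nat.mod_lt n hm).le

theorem ne_one_level {m : ℕ} [NeZero m] (χ : DirichletCharacter ℂ m) (hχ : χ ≠ 1) : m ≠ 1 := by
  rintro rfl
  exact hχ (DirichletCharacter.level_one χ)

theorem apply_zero {m : ℕ} [NeZero m] (χ : DirichletCharacter ℂ m) (hχ : χ ≠ 1) :
    χ ((0 : ℕ) : ZMod m) = 0 := by
  have h := ne_one_level χ hχ
  have : Nontrivial (ZMod m) := ZMod.nontrivial_iff.2 h
  rw [Nat.cast_zero]
  exact χ.map_zero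

theorem norm_sum_Icc_le {m : ℕ} [NeZero m] (χ : DirichletCharacter ℂ m) (hχ : χ ≠ 1) (n : ℕ) :
    ‖∑ k ∈ Icc 1 n, χ (k : ZMod m)‖ ≤ m := by
  have h : ∑ k ∈ Icc 1 n, χ (k : ZMod m) = ∑ k ∈ range (n + 1), χ (k : ZMod m) := by
    rw [range_eq_Ico, sum_eq_sum_Ico_succ_bot (Nat.succ_pos n), apply_zero χ hχ, zero_add]
    rfl
  rw [h]
  exact norm_sum_range_le χ hχ _

/-- the partial sums as a function on `(0, ∞)`, zero on `(0, 1]` -/
noncomputable def X {m : ℕ} (χ : DirichletCharacter ℂ m) (t : ℝ) : ℂ :=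
  if 1 < t then ∑ k ∈ Icc 1 ⌊t⌋₊, χ (k : ZMod m) else 0

theorem norm_X_le {m : ℕ} [NeZero m] (χ : DirichletCharacter ℂ m) (hχ : χ ≠ 1) (t : ℝ) :
    ‖X χ t‖ ≤ m := by
  unfold X
  split_ifs
  · exact norm_sum_Icc_le χ hχ _
  · rw [norm_zero]
    positivity

theorem measurable_X {m : ℕ} (χ : DirichletCharacter ℂ m) : Measurable (X χ) := by
  have h1 : Measurable fun n : ℕ => ∑ k ∈ Icc 1 n, χ (k : ZMod m) := measurable_from_nat
  exact Measurable.ite measurableSet_Ioi (h1.comp Nat.measurable_floor) measurable_const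

theorem locInt_X {m : ℕ} [NeZero m] (χ : DirichletCharacter ℂ m) (hχ : χ ≠ 1) :
    LocallyIntegrableOn (X χ) (Set.Ioi 0) := by
  have h : LocallyIntegrable (X χ) := by
    have h1 : LocallyIntegrable (fun _ : ℝ => (m : ℝ)) := locallyIntegrable_const _
    refine h1.mono (measurable_X χ).aestronglyMeasurable ?_
    refine ae_of_all _ fun t => ?_
    rw [Real.norm_of_nonneg (Nat.cast_nonneg m)]
    exact norm_X_le χ hχ t
  exact h.locallyIntegrableOn _

theorem diff_mellin {m : ℕ} [NeZero m] (χ : DirichletCharacter ℂ m) (hχ : χ ≠ 1) {s : ℂ}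
    (hs : s.re < 0) : DifferentiableAt ℂ (mellin (X χ)) s := by
  refine mellin_differentiableAt_of_isBigO_rpow (a := 0) (b := s.re - 1) (locInt_X χ hχ) ?_ hs ?_
    (by linarith)
  · refine Asymptotics.IsBigO.of_bound m ?_
    refine Eventually.of_forall fun t => ?_
    rw [neg_zero, Real.rpow_zero, norm_one, mul_one]
    exact norm_X_le χ hχ t
  · refine Asymptotics.IsBigO.of_bound 0 ?_
    have h1 : ∀ᶠ t : ℝ in 𝓝[>] 0, t < 1 := by
      refine eventually_nhdsWithin_of_eventually_nhds ?_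
      exact gt_mem_nhds one_pos
    filter_upwards [h1] with t ht
    rw [zero_mul, X, if_neg (by linarith), norm_zero]

theorem mellin_eq {m : ℕ} (χ : DirichletCharacter ℂ m) (s : ℂ) :
    mellin (X χ) (-s) =
      ∫ t in Set.Ioi (1 : ℝ), (∑ k ∈ Icc 1 ⌊t⌋₊, χ (k : ZMod m)) * (t : ℂ) ^ (-(s + 1)) := by
  unfold mellin
  rw [← integral_indicator measurableSet_Ioi, ← integral_indicator measurableSet_Ioi]
  congr 1
  funext t
  by_cases ht : 1 < t
  · rw [Set.indicator_of_mem (show t ∈ Set.Ioi (0 : ℝ) from lt_trans one_pos ht),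
      Set.indicator_of_mem (show t ∈ Set.Ioi (1 : ℝ) from ht), X, if_pos ht, smul_eq_mul, mul_comm]
    congr 2
    ring
  · rw [Set.indicator_of_notMem (show t ∉ Set.Ioi (1 : ℝ) from ht)]
    by_cases h0 : 0 < t
    · rw [Set.indicator_of_mem (show t ∈ Set.Ioi (0 : ℝ) from h0), X, if_neg ht, smul_zero]
    · rw [Set.indicator_of_notMem (show t ∉ Set.Ioi (0 : ℝ) from h0)]

theorem eq_on_re_gt_one {m : ℕ} [NeZero m] (χ : DirichletCharacter ℂ m) (hχ : χ ≠ 1) {s : ℂ}
    (hs : 1 < s.re) : χ.LFunction s = s * mellin (X χ) (-s) := by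
  rw [DirichletCharacter.LFunction_eq_LSeries χ hs, mellin_eq]
  refine LSeries_eq_mul_integral (fun n : ℕ => χ (n : ZMod m)) le_rfl (by linarith)
    (DirichletCharacter.LSeriesSummable_of_one_lt_re χ hs) ?_
  refine Asymptotics.IsBigO.of_bound m ?_
  refine Eventually.of_forall fun n => ?_
  rw [Real.rpow_zero, norm_one, mul_one]
  exact norm_sum_Icc_le χ hχ n

theorem eq_on_re_pos {m : ℕ} [NeZero m] (χ : DirichletCharacter ℂ m) (hχ : χ ≠ 1) {s : ℂ}
    (hs : 0 < s.re) : χ.LFunction s = s * mellin (X χ) (-s) := by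
  have hopen : IsOpen {s : ℂ | 0 < s.re} := isOpen_lt continuous_const Complex.continuous_re
  have h1 : AnalyticOnNhd ℂ χ.LFunction {s : ℂ | 0 < s.re} :=
    (DirichletCharacter.differentiable_LFunction hχ).differentiableOn.analyticOnNhd hopen
  have h2 : AnalyticOnNhd ℂ (fun s => s * mellin (X χ) (-s)) {s : ℂ | 0 < s.re} := by
    refine DifferentiableOn.analyticOnNhd (fun s hs => ?_) hopen
    refine DifferentiableAt.differentiableWithinAt ?_
    refine differentiableAt_id.mul ?_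
    have h3 : DifferentiableAt ℂ (mellin (X χ)) (-s) := diff_mellin χ hχ (by
      rw [Complex.neg_re]
      exact neg_lt_zero.2 hs)
    exact h3.comp s differentiableAt_id.neg
  have hconn : IsPreconnected {s : ℂ | 0 < s.re} :=
    (convex_halfSpace_re_gt 0).isPreconnected
  have h2mem : (2 : ℂ) ∈ {s : ℂ | 0 < s.re} := by simp
  refine h1.eqOn_of_preconnected_of_eventuallyEq h2 hconn h2mem ?_ hs
  have hopen1 : IsOpen {s : ℂ | 1 < s.re} := isOpen_lt continuous_const Complex.continuous_re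
  filter_upwards [hopen1.mem_nhds (show (2 : ℂ) ∈ {s : ℂ | 1 < s.re} by simp)] with z hz
  exact eq_on_re_gt_one χ hχ hz

theorem norm_mellin_le {m : ℕ} [NeZero m] (χ : DirichletCharacter ℂ m) (hχ : χ ≠ 1) {s : ℂ}
    (hs : 0 < s.re) : ‖mellin (X χ) (-s)‖ ≤ m / s.re := by
  rw [mellin_eq]
  have h1 : IntegrableOn (fun t : ℝ => t ^ (-s.re - 1)) (Set.Ioi 1) :=
    integrableOn_Ioi_rpow_of_lt (by linarith) one_pos
  have h2 : ∫ t in Set.Ioi (1 : ℝ), t ^ (-s.re - 1) = 1 / s.re := by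
    rw [integral_Ioi_rpow_of_lt (by linarith) one_pos, Real.one_rpow]
    have : -s.re - 1 + 1 = -s.re := by ring
    rw [this]
    field_simp
  calc ‖∫ t in Set.Ioi (1 : ℝ), (∑ k ∈ Icc 1 ⌊t⌋₊, χ (k : ZMod m)) * (t : ℂ) ^ (-(s + 1))‖
      ≤ ∫ t in Set.Ioi (1 : ℝ), (m : ℝ) * t ^ (-s.re - 1) := by
        refine norm_integral_le_of_norm_le (h1.const_mul _) ?_
        rw [ae_restrict_iff' measurableSet_Ioi]
        refine ae_of_all _ fun t ht => ?_
        have ht0 : 0 < t := lt_trans one_pos ht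
        rw [norm_mul, Complex.norm_cpow_eq_rpow_re_of_pos ht0]
        have : (-(s + 1)).re = -s.re - 1 := by
          simp
          ring
        rw [this]
        exact mul_le_mul_of_nonneg_right (norm_sum_Icc_le χ hχ _) (Real.rpow_nonneg ht0.le _)
    _ = m / s.re := by
        rw [integral_const_mul, h2]
        ring

end LBD

/-- **MLD_LBD.** -/
theorem lbd : S_LBD := by
  refine ⟨7, by norm_num, fun m _ χ hχ s hs => ?_⟩
  have h1 : |s.re - 2| ≤ 3 / 2 := by
    have := Complex.abs_re_le_norm (s - 2)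
    simp only [Complex.sub_re, Complex.re_ofNat] at this
    linarith
  have h2 : 1 / 2 ≤ s.re := by
    have := (abs_le.1 h1).1
    linarith
  have h3 : ‖s‖ ≤ 7 / 2 := by
    have h4 := norm_add_le (s - 2) 2
    rw [sub_add_cancel] at h4
    have h5 : ‖(2 : ℂ)‖ = 2 := by simp
    rw [h5] at h4
    linarith
  rw [LBD.eq_on_re_pos χ hχ (by linarith), norm_mul]
  have h4 := LBD.norm_mellin_le χ hχ (s := s) (by linarith)
  have hm : (0 : ℝ) ≤ m := Nat.cast_nonneg m
  have h5 : (m : ℝ) / s.re ≤ 2 * m := by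
    rw [div_le_iff₀ (by linarith)]
    nlinarith
  calc ‖s‖ * ‖mellin (LBD.X χ) (-s)‖ ≤ 7 / 2 * (2 * m) :=
        mul_le_mul h3 (h4.trans h5) (norm_nonneg _) (by norm_num)
    _ = 7 * m := by ring

end Pool.Agent.Mld
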