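import Pool.Agent.Mld.Stmts

set_option autoImplicit false

/-!
# Sawtooth sums: basic lemmas
-/

namespace Pool.Agent.Mld

open Finset

theorem saw_zero (m : ℕ) : saw m 0 = 0 := by simp [saw]

theorem saw_of_ne {m : ℕ} {x : ZMod m} (hx : x ≠ 0) : saw m x = (x.val : ℝ) / m - 1 / 2 := by
  simp [saw, hx]

theorem saw_neg {m : ℕ} [NeZero m] (x : ZMod m) : saw m (-x) = -saw m x := by
  by_cases hx : x = 0
  · subst hx; simp [saw_zero]
  · have hm : (m : ℝ) ≠ 0 := by exact_mod_cast NeZero.ne m
    have hx' : -x ≠ 0 := neg_ne_zero.2 hx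
    rw [saw_of_ne hx, saw_of_ne hx']
    have : NeZero x := ⟨hx⟩
    have h : (-x).val = m - x.val := ZMod.val_neg_of_ne_zero x
    have hlt := (ZMod.val_lt x).le
    rw [h, Nat.cast_sub hlt]
    field_simp
    ring

theorem saw_lt {m : ℕ} [NeZero m] (x : ZMod m) : |saw m x| < 1 / 2 := by
  by_cases hx : x = 0
  · subst hx; simp [saw_zero]
  · have hm : (0 : ℝ) < m := by exact_mod_cast NeZero.pos m
    rw [saw_of_ne hx, abs_lt]
    have h0 : (0 : ℝ) < x.val := by
      have : x.val ≠ 0 := fun h => hx ((ZMod.val_eq_zero x).1 h)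
      exact_mod_cast Nat.pos_of_ne_zero this
    have h1 : (x.val : ℝ) < m := by exact_mod_cast ZMod.val_lt x
    have h2 : 0 < (x.val : ℝ) / m := by positivity
    have h3 : (x.val : ℝ) / m < 1 := (div_lt_one hm).2 h1
    constructor <;> linarith

theorem SS_zero (m : ℕ) (k : ZMod m) : SS m 0 k = 0 := by simp [SS]

theorem SS_cons (m : ℕ) (a : (ZMod m)ˣ) (w : Multiset (ZMod m)ˣ) (k : ZMod m) :
    SS m (a ::ₘ w) k = saw m (k * (a : ZMod m)) + SS m w k := by simp [SS]

theorem SS_add (m : ℕ) (v w : Multiset (ZMod m)ˣ) (k : ZMod m) :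
    SS m (v + w) k = SS m v k + SS m w k := by simp [SS]

theorem SS_map_neg {m : ℕ} [NeZero m] (w : Multiset (ZMod m)ˣ) (k : ZMod m) :
    SS m (w.map fun u : (ZMod m)ˣ => -u) k = -SS m w k := by
  unfold SS
  rw [Multiset.map_map]
  induction w using Multiset.induction_on with
  | empty => simp
  | cons a s ih =>
    simp only [Function.comp_apply, Multiset.map_cons, Multiset.sum_cons] at ih ⊢
    rw [ih, Units.val_neg, mul_neg, saw_neg]
    ring

theorem SS_neg {m : ℕ} [NeZero m] (w : Multiset (ZMod m)ˣ) (k : ZMod m) :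
    SS m w (-k) = -SS m w k := by
  unfold SS
  induction w using Multiset.induction_on with
  | empty => simp
  | cons a s ih =>
    simp only [Multiset.map_cons, Multiset.sum_cons] at ih ⊢
    rw [ih, neg_mul, saw_neg]
    ring

/-- the cancelling part does not contribute -/
theorem SS_unp {m : ℕ} [NeZero m] (w : Multiset (ZMod m)ˣ) (k : ZMod m) :
    SS m (unp w) k = SS m w k := by
  classical
  have h1 : w = unp w + (w ∩ w.map fun u : (ZMod m)ˣ => -u) := by
    unfold unp
    exact (Multiset.sub_add_inter w _).symm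
  have h2 : (w ∩ w.map fun u : (ZMod m)ˣ => -u).map (fun u : (ZMod m)ˣ => -u) = w ∩ w.map fun u : (ZMod m)ˣ => -u := by
    ext a
    have e : Function.Injective fun u : (ZMod m)ˣ => -u := neg_injective
    have c1 : ∀ (s : Multiset (ZMod m)ˣ) (b : (ZMod m)ˣ),
        (s.map fun u : (ZMod m)ˣ => -u).count b = s.count (-b) := by
      intro s b
      have := Multiset.count_map_eq_count' (fun u : (ZMod m)ˣ => -u) s e (-b)
      simpa using this
    rw [c1, Multiset.count_inter, Multiset.count_inter, c1, c1, neg_neg, min_comm]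
  have h3 : SS m (w ∩ w.map fun u : (ZMod m)ˣ => -u) k = 0 := by
    have := SS_map_neg (w ∩ w.map fun u : (ZMod m)ˣ => -u) k
    rw [h2] at this
    linarith
  conv_rhs => rw [h1]
  rw [SS_add, h3, add_zero]

theorem SS_zero_arg (m : ℕ) (w : Multiset (ZMod m)ˣ) : SS m w 0 = 0 := by
  unfold SS
  simp [saw_zero]

end Pool.Agent.Mld
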