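import Mathlib

set_option autoImplicit false

/-!
# MP_fa3f7f_ag: minimal log discrepancies of isolated quotient singularities of all dimensions

`G ⊂ GL_n(ℂ)` finite, nontrivial, acting freely on `ℂ^n ∖ 0`, `n ≥ 2`: then `X = ℂ^n / G` has an
isolated singularity at the origin, and (Reid, Tai) its minimal log discrepancy is the minimum of the
ages of the elements `g ≠ 1` of `G`.
-/

namespace Pool.Agent.Mld

open Matrix

noncomputable section

/-! ### ages and minimal log discrepancies -/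

/-- `x ∈ [0, 1)` for `z = e^{2 π i x}` -/
def fr (z : ℂ) : ℝ := Int.fract (Complex.arg z / (2 * Real.pi))

/-- the eigenvalues of `g`, with multiplicities -/
def eig {n : ℕ} (g : GL (Fin n) ℂ) : Multiset ℂ :=
  (g : Matrix (Fin n) (Fin n) ℂ).charpoly.roots

/-- the age of `g`: `x_1 + ... + x_n` if `e^{2 π i x_j}`, `0 ≤ x_j < 1`, are the eigenvalues -/
def age {n : ℕ} (g : GL (Fin n) ℂ) : ℝ := ((eig g).map fr).sum

/-- `G` acts freely on `ℂ^n ∖ 0` -/
def Free {n : ℕ} (G : Subgroup (GL (Fin n) ℂ)) : Prop :=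
  ∀ g ∈ G, g ≠ 1 → ∀ v : Fin n → ℂ, (g : Matrix (Fin n) (Fin n) ℂ).mulVec v = v → v = 0

/-- `ℂ^n / G` is an isolated quotient singularity of dimension `n ≥ 2`, with `G` as local
fundamental group -/
structure IsoQuot {n : ℕ} (G : Subgroup (GL (Fin n) ℂ)) : Prop where
  two_le : 2 ≤ n
  fin : Finite G
  ne : G ≠ ⊥
  free : Free G

/-- the minimal log discrepancy of `ℂ^n / G` at the origin, by the formula of Reid and Tai -/
def mld {n : ℕ} (G : Subgroup (GL (Fin n) ℂ)) : ℝ := sInf {a : ℝ | ∃ g ∈ G, g ≠ 1 ∧ age g = a}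

/-- the defects `dim X / 2 - mld X` of the isolated quotient singularities `X` of all dimensions -/
def defects : Set ℝ :=
  {d : ℝ | ∃ (n : ℕ) (G : Subgroup (GL (Fin n) ℂ)), IsoQuot G ∧ d = (n : ℝ) / 2 - mld G}

/-! ### sawtooth sums -/

/-- the sawtooth function on `ℤ / m` -/
def saw (m : ℕ) (x : ZMod m) : ℝ := if x = 0 then 0 else (x.val : ℝ) / m - 1 / 2

/-- the sawtooth sum of a multiset of weights -/
def SS (m : ℕ) (w : Multiset (ZMod m)ˣ) (k : ZMod m) : ℝ :=
  (w.map fun a : (ZMod m)ˣ => saw m (k * (a : ZMod m))).sum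

/-- the part of `w` which does not cancel in pairs `u, -u` -/
def unp {m : ℕ} (w : Multiset (ZMod m)ˣ) : Multiset (ZMod m)ˣ := w - w.map fun u : (ZMod m)ˣ => -u

/-! ### characters -/

/-- the product of two characters -/
def prodChar {q₁ q₂ : ℕ} (χ₁ : DirichletCharacter ℂ q₁) (χ₂ : DirichletCharacter ℂ q₂) :
    DirichletCharacter ℂ (q₁ * q₂) :=
  DirichletCharacter.changeLevel (dvd_mul_right q₁ q₂) χ₁ *
    DirichletCharacter.changeLevel (dvd_mul_left q₂ q₁) χ₂

/-- the arithmetic function of a character -/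
def ar {q : ℕ} (χ : DirichletCharacter ℂ q) : ArithmeticFunction ℂ :=
  ⟨fun n => if n = 0 then 0 else χ n, by simp⟩

end

end Pool.Agent.Mld
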