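import Pool.Agent.Mld.Defs

set_option autoImplicit false

/-!
# Minimal log discrepancies: the statements of the modules

See `PAPER.md` in this folder.
-/

namespace Pool.Agent.Mld

open Matrix Finset
open scoped ComplexOrder

noncomputable section

/-! ### L-functions at `1` and sawtooth sums -/

/-- MLD_PID: the value at `1` of the L-function of an odd character (not necessarily primitive) -/
def S_PID : Prop :=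
  ∀ (m : ℕ) [NeZero m] (χ : DirichletCharacter ℂ m), χ.Odd →
    ∑ h : ZMod m, χ h * ∑ k : ZMod m, (saw m k : ℂ) * ZMod.stdAddChar (-(h * k)) =
      (Complex.I * m / Real.pi) * χ.LFunction 1

/-- MLD_PARS: Parseval -/
def S_PARS : Prop :=
  ∀ (m : ℕ) [NeZero m] (f : (ZMod m)ˣ → ℂ),
    ∑ χ : DirichletCharacter ℂ m, ‖∑ u : (ZMod m)ˣ, f u * χ (u : ZMod m)‖ ^ 2 =
      m.totient * ∑ u : (ZMod m)ˣ, ‖f u‖ ^ 2

/-- MLD_PINEQ: bounded sawtooth sums -/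
def S_PINEQ : Prop :=
  ∀ (m : ℕ) [NeZero m] (g : (ZMod m)ˣ → ℝ) (B : ℝ), (∀ u, g (-u) = -g u) →
    (∀ k : ZMod m, |∑ u : (ZMod m)ˣ, g u * saw m (k * (u : ZMod m))| ≤ B) →
    ∑ χ : DirichletCharacter ℂ m,
        ‖∑ u : (ZMod m)ˣ, (g u : ℂ) * χ (u : ZMod m)‖ ^ 2 * ‖χ.LFunction 1‖ ^ 2 ≤
      m.totient * (Real.pi * B) ^ 2

/-- MLD_IND: linear independence -/
def S_IND : Prop :=
  ∀ (m : ℕ) [NeZero m] (g : (ZMod m)ˣ → ℝ), (∀ u, g (-u) = -g u) →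
    (∀ k : ZMod m, ∑ u : (ZMod m)ˣ, g u * saw m (k * (u : ZMod m)) = 0) → ∀ u, g u = 0

/-! ### most characters have `L(1, χ)` not too small -/

/-- MLD_DIV: the divisor bound -/
def S_DIV : Prop :=
  ∃ C : ℝ, 0 < C ∧ ∀ n : ℕ, 1 ≤ n → (n.divisors.card : ℝ) ≤ C * (n : ℝ) ^ (1 / 8 : ℝ)

/-- MLD_TAIL: partial sums of `L(1, χ)` -/
def S_TAIL : Prop :=
  ∀ (m : ℕ) [NeZero m] (χ : DirichletCharacter ℂ m), χ ≠ 1 → ∀ Y : ℕ, 1 ≤ Y →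
    ‖χ.LFunction 1 - ∑ l ∈ Icc 1 Y, χ (l : ZMod m) / (l : ℂ)‖ ≤ 2 * m / Y

/-- the mollifier -/
def MN {m : ℕ} (χ : DirichletCharacter ℂ m) (N : ℕ) : ℂ :=
  ∑ n ∈ Icc 1 N, (ArithmeticFunction.moebius n : ℂ) * χ (n : ZMod m) / (n : ℂ)

open Classical in
/-- MLD_SPARSE: the mollified second moment -/
def S_SPARSE : Prop :=
  ∃ C : ℝ, 0 < C ∧ ∀ (m : ℕ) [NeZero m] (N : ℕ), 1 ≤ N → N ^ 2 ≤ m →
    ∑ χ ∈ (Finset.univ : Finset (DirichletCharacter ℂ m)).filter (fun χ => χ ≠ 1),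
      ‖χ.LFunction 1 * MN χ N - 1‖ ^ 2 ≤ C * m.totient * (N : ℝ) ^ (-(1 / 2) : ℝ)

/-! ### lower bounds for all characters -/

/-- MLD_LUP: upper bounds at and to the right of `1` -/
def S_LUP : Prop :=
  ∃ C : ℝ, 0 < C ∧ ∀ (m : ℕ) [NeZero m] (χ : DirichletCharacter ℂ m), χ ≠ 1 →
    ∀ x : ℝ, 0 ≤ x → x ≤ 1 →
      ‖χ.LFunction (1 + x)‖ ≤ C * (1 + Real.log m) ∧
      ‖χ.LFunction (1 + x) - χ.LFunction 1‖ ≤ C * x * (1 + Real.log m) ^ 2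

/-- MLD_CPLX: characters which are not real -/
def S_CPLX : Prop :=
  ∃ c : ℝ, 0 < c ∧ ∀ (m : ℕ) [NeZero m] (χ : DirichletCharacter ℂ m), χ ^ 2 ≠ 1 →
    c / (1 + Real.log m) ^ 7 ≤ ‖χ.LFunction 1‖

/-- MLD_LBD: a bound in a disc -/
def S_LBD : Prop :=
  ∃ C : ℝ, 0 < C ∧ ∀ (m : ℕ) [NeZero m] (χ : DirichletCharacter ℂ m), χ ≠ 1 →
    ∀ s : ℂ, ‖s - 2‖ ≤ 3 / 2 → ‖χ.LFunction s‖ ≤ C * m

/-- MLD_ABS: the abstract inequality of Estermann -/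
def S_ABS : Prop :=
  ∀ (F : ℂ → ℂ) (M l : ℝ) (b : ℕ → ℝ), DiffContOnCl ℂ F (Metric.ball 2 (3 / 2)) →
    (∀ s, ‖s - 2‖ ≤ 3 / 2 → ‖F s‖ ≤ M) → 1 ≤ M → 0 ≤ l → 1 ≤ b 0 → (∀ k, 0 ≤ b k) →
    (∀ s : ℂ, ‖s - 2‖ < 1 → HasSum (fun k : ℕ => ((b k - l : ℝ) : ℂ) * (2 - s) ^ k) (F s)) →
    ∀ σ : ℝ, 7 / 8 < σ → σ < 1 →
      1 / 2 - 2 * l / (1 - σ) * (8 * M) ^ (4 * (1 - σ)) ≤ (F σ).re - l / (1 - σ)

/-- MLD_COEF: positivity of coefficients -/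
def S_COEF : Prop :=
  ∀ (q₁ q₂ : ℕ) [NeZero q₁] [NeZero q₂] (χ₁ : DirichletCharacter ℂ q₁)
    (χ₂ : DirichletCharacter ℂ q₂), χ₁ ^ 2 = 1 → χ₂ ^ 2 = 1 → ∀ n : ℕ,
    0 ≤ ((ArithmeticFunction.zeta : ArithmeticFunction ℂ) * ar χ₁ * ar χ₂ * ar (prodChar χ₁ χ₂)) n

/-- MLD_EST: the inequality of Estermann -/
def S_EST : Prop :=
  ∃ C : ℝ, 0 < C ∧ ∀ (q₁ q₂ : ℕ) [NeZero q₁] [NeZero q₂] (χ₁ : DirichletCharacter ℂ q₁)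
    (χ₂ : DirichletCharacter ℂ q₂), χ₁ ^ 2 = 1 → χ₂ ^ 2 = 1 → χ₁ ≠ 1 → χ₂ ≠ 1 →
    prodChar χ₁ χ₂ ≠ 1 → ∀ σ : ℝ, 7 / 8 < σ → σ < 1 →
      1 / 2 - C * (‖χ₁.LFunction 1‖ * ‖χ₂.LFunction 1‖ * ‖(prodChar χ₁ χ₂).LFunction 1‖) / (1 - σ) *
          ((q₁ : ℝ) * q₂) ^ (8 * (1 - σ)) ≤
        (riemannZeta σ * χ₁.LFunction σ * χ₂.LFunction σ * (prodChar χ₁ χ₂).LFunction σ).re

/-- MLD_REAL: real characters have real L-functions on the real axis, positive at `1` -/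
def S_REAL : Prop :=
  ∀ (m : ℕ) [NeZero m] (χ : DirichletCharacter ℂ m), χ ^ 2 = 1 → χ ≠ 1 →
    (∀ σ : ℝ, 0 < σ → (χ.LFunction σ).im = 0) ∧ 0 < (χ.LFunction 1).re

/-- MLD_SIEG: the theorem of Siegel for primitive real characters -/
def S_SIEG : Prop :=
  ∀ ε : ℝ, 0 < ε → ∃ c : ℝ, 0 < c ∧ ∀ (q : ℕ) [NeZero q] (χ : DirichletCharacter ℂ q),
    χ.IsPrimitive → χ ^ 2 = 1 → χ ≠ 1 → c * (q : ℝ) ^ (-ε) ≤ ‖χ.LFunction 1‖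

/-- MLD_LOW: a lower bound for all characters -/
def S_LOW : Prop :=
  ∃ c : ℝ, 0 < c ∧ ∀ (m : ℕ) [NeZero m] (χ : DirichletCharacter ℂ m), χ ≠ 1 →
    c * (m : ℝ) ^ (-(1 / 16) : ℝ) ≤ ‖χ.LFunction 1‖

/-! ### rigidity, compactness, classification of weights -/

/-- MLD_RIG: bounded sawtooth sums have boundedly many weights outside pairs `u, -u` -/
def S_RIG : Prop :=
  ∃ C : ℝ, 0 < C ∧ ∀ (m : ℕ) [NeZero m] (w : Multiset (ZMod m)ˣ) (A : ℝ),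
    (∀ k : ZMod m, |SS m w k| ≤ A) → ((unp w).card : ℝ) ≤ C * A ^ 4

/-- MLD_CP: compactness -/
def S_CP : Prop :=
  ∀ (N : ℕ) (f : ℕ → ℝ) (m : ℕ → ℕ) (b : ∀ j, Fin N → (ZMod (m j))ˣ), StrictAnti f →
    (∀ j, 2 ≤ m j) →
    (∀ j, ∀ k : ZMod (m j), k ≠ 0 → ∑ i, saw (m j) (k * (b j i : ZMod (m j))) ≤ f j) →
    (∀ j, ∃ k : ZMod (m j), k ≠ 0 ∧ ∑ i, saw (m j) (k * (b j i : ZMod (m j))) = f j) → False

/-- MLD_ACC: the ascending chain condition for multisets of weights -/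
def S_ACC : Prop :=
  ∀ (f : ℕ → ℝ) (m : ℕ → ℕ) (w : ∀ j, Multiset (ZMod (m j))ˣ), StrictAnti f → (∀ j, 2 ≤ m j) →
    (∀ j, ∀ k : ZMod (m j), k ≠ 0 → SS (m j) (w j) k ≤ f j) →
    (∀ j, ∃ k : ZMod (m j), k ≠ 0 ∧ SS (m j) (w j) k = f j) → False

/-- MLD_SYM: multisets of weights which are invariant under `u ↦ -u` -/
def S_SYM : Prop :=
  ∀ (m : ℕ) [NeZero m] (v : Multiset (ZMod m)ˣ), v.map (fun u : (ZMod m)ˣ => -u) = v →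
    (∀ k : ZMod m, SS m v k = 0) ∧ (3 ≤ m → Even v.card) ∧
    (Even v.card → ∃ t : Multiset (ZMod m)ˣ, v = t + t.map fun u : (ZMod m)ˣ => -u)

/-- MLD_CLASS: the weights whose sawtooth sums are all smaller than `1/2` -/
def S_CLASS : Prop :=
  ∀ (m : ℕ) [NeZero m] (w : Multiset (ZMod m)ˣ), 2 ≤ m →
    (∀ k : ZMod m, k ≠ 0 → |SS m w k| < 1 / 2) →
    (Odd w.card → ∃ (c : (ZMod m)ˣ) (v : Multiset (ZMod m)ˣ), w = c ::ₘ v ∧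
      v.map (fun u : (ZMod m)ˣ => -u) = v) ∧
    (Even w.card → w.map (fun u : (ZMod m)ˣ => -u) = w ∨ (Odd m ∧ 3 ≤ m ∧
      ∃ (c d : (ZMod m)ˣ) (v : Multiset (ZMod m)ˣ), (d : ZMod m) = 2 * (c : ZMod m) ∧
        w = d ::ₘ (-c) ::ₘ v ∧ v.map (fun u : (ZMod m)ˣ => -u) = v))

/-- MLD_VAL: the values in the two cases -/
def S_VAL : Prop :=
  (∀ (m : ℕ) [NeZero m], 2 ≤ m → ∀ (c : (ZMod m)ˣ) (v : Multiset (ZMod m)ˣ),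
    v.map (fun u : (ZMod m)ˣ => -u) = v →
      (∀ k : ZMod m, k ≠ 0 → SS m (c ::ₘ v) k ≤ 1 / 2 - 1 / m) ∧
      ∃ k : ZMod m, k ≠ 0 ∧ SS m (c ::ₘ v) k = 1 / 2 - 1 / m) ∧
  (∀ (m : ℕ) [NeZero m], 3 ≤ m → Odd m → ∀ (c d : (ZMod m)ˣ) (v : Multiset (ZMod m)ˣ),
    (d : ZMod m) = 2 * (c : ZMod m) → v.map (fun u : (ZMod m)ˣ => -u) = v →
      (∀ k : ZMod m, k ≠ 0 → SS m (d ::ₘ (-c) ::ₘ v) k ≤ 1 / 2 - 1 / (2 * m)) ∧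
      ∃ k : ZMod m, k ≠ 0 ∧ SS m (d ::ₘ (-c) ::ₘ v) k = 1 / 2 - 1 / (2 * m))

/-! ### groups -/

/-- MLD_GR: the weights of an element of order `m` of a group acting freely -/
def S_GR : Prop :=
  ∀ (n m : ℕ) [NeZero m] (g : GL (Fin n) ℂ), 2 ≤ m → orderOf g = m → Free (Subgroup.zpowers g) →
    ∃ w : Multiset (ZMod m)ˣ, w.card = n ∧
      (eig g = w.map fun u : (ZMod m)ˣ => (ZMod.stdAddChar (u : ZMod m) : ℂ)) ∧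
      ∀ k : ℕ, (k : ZMod m) ≠ 0 → age (g ^ k) = (n : ℝ) / 2 + SS m w k

/-- MLD_MK: realisation of given weights -/
def S_MK : Prop :=
  ∀ (n m : ℕ) [NeZero m] (w : Multiset (ZMod m)ˣ), 2 ≤ m → 1 ≤ n → w.card = n →
    ∃ g : GL (Fin n) ℂ, orderOf g = m ∧ Free (Subgroup.zpowers g) ∧
      (eig g = w.map fun u : (ZMod m)ˣ => (ZMod.stdAddChar (u : ZMod m) : ℂ)) ∧
      ∀ k : ℕ, (k : ZMod m) ≠ 0 → age (g ^ k) = (n : ℝ) / 2 + SS m w k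

/-- MLD_GRP: a group acting freely whose elements have determinant `1` or a determinant of the same
odd order -/
def S_GRP : Prop :=
  ∀ (n : ℕ) (G : Subgroup (GL (Fin n) ℂ)), 1 ≤ n → Finite G → Free G →
    (∀ g ∈ G, g ≠ 1 → Matrix.GeneralLinearGroup.det g = 1 ∨
      (orderOf (Matrix.GeneralLinearGroup.det g) = orderOf g ∧ Odd (orderOf g))) →
    (∀ g ∈ G, Matrix.GeneralLinearGroup.det g = 1) ∨
      (∀ g ∈ G, Matrix.GeneralLinearGroup.det g = 1 → g = 1)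

end

end Pool.Agent.Mld
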